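import Pool.Agent.E8helper1.TBW.Pub
import Pool.Agent.E8helper1.TBU.Conv
import Pool.Agent.E8helper24.HP.TateQ

/-!
# 51 percent of the Tate classes on one power decide
-/

open CategoryTheory AlgebraicGeometry

universe u

namespace Pool.Agent.E8helper1.TBW

open Pool.Agent.H914 Pool.Agent.H914.VarClass Pool.Agent.H914.VarClass.Obj
  Pool.Agent.H914.WeilCohomology
open Pool.Agent.Y129 (pw)
open Pool.Agent.E8helper1.TP (Gal hdim alg)
open Pool.Agent.E8helper1.TPQ (Frobenii HomNum exponent)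
open Pool.Agent.E8helper1.TBU
open Pool.Agent.E8helper24.HP (AtMostHalf constant)
open Pool.Agent.Y133.Half (cycRank)

theorem fg_of_isWeightDim {D : ℕ} {N : ℕ → Type} [∀ r, AddCommGroup (N r)] {E : ℕ → ℤ → Type}
    [∀ s i, AddCommGroup (E s i)] (h : IsWeightDim D N E)
    (hN : ∀ r, 1 ≤ r → ∀ z : N r, z = 0) : FinitelyGenerated D E := by
  intro s hs i hi
  rcases eq_or_lt_of_le hi with rfl | hlt
  · exact h.top s hs
  · obtain ⟨r, hr⟩ := Int.eq_ofNat_of_zero_le (show 0 ≤ 2 * (D : ℤ) - i by omega)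
    have hr1 : 1 ≤ r := by omega
    obtain rfl : i = 2 * D - r := by omega
    obtain ⟨f, hf⟩ := h.low s hs r hr1
    have hker : ∀ x, x ∈ f.ker := fun x => by
      rw [AddMonoidHom.mem_ker]
      exact hN r hr1 _
    have : Finite (E s (2 * D - r)) := Finite.of_injective (fun x => (⟨x, hker x⟩ : f.ker))
      fun a b hab => congrArg Subtype.val hab
    infer_instance

variable {k : Type u} [Field k] {𝒱 : VarClass k} {ops : CycleOps 𝒱}
  {W : WeilCohomology.{u, 0} ops} {X : 𝒱.Obj}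

/-- **51 percent of the Tate classes on one power decide.** -/
theorem half {ℓ : ℕ} [Fact ℓ.Prime] (φ : W.K ≃+* ℚ_[ℓ]) (hX : 0 < hdim W X)
    {G : Gal W X} (hG : Frobenii G φ) {C : Chow W X} {q : ℕ} {γ : G.Γ} (hF : IsFinite G q γ)
    (hC : IsChow G C q γ)
    (hK : C.Nilpotence ∨ ∃ m, hdim W X < m ∧ C.RatHom (2 * m - 1))
    {E : ℕ → ℕ → ℤ → Type} [∀ n s i, AddCommGroup (E n s i)]
    (hE : ∀ n, IsWeightDim (pw X n).dim (C.M n (pw X n).dim) (E n)) {m : ℕ}
    (hm : (hdim W X : ℝ) ^ 3 * (exponent (hdim W X) X.dim : ℝ) ^ 2 *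
      Real.log (2 * hdim W X * exponent (hdim W X) X.dim + 1) ≤ m) :
    (∀ n, TateBeilinson G C n ∧ FinitelyGenerated (pw X n).dim (E n)) ∨
      AtMostHalf (fun n => cycRank ops (pw X n)) G.tateDim (constant (hdim W X) m) := by
  have hcyc : IsCyclic G.Γ := ⟨γ, hF.gen⟩
  rcases Pool.Agent.E8helper24.HP.tate_halfQ φ hX G hG (Or.inl hcyc) _ rfl m hm with h | h
  · refine Or.inl fun n => ?_
    obtain ⟨-, hT, hH⟩ := h
    have hnil : C.Nilpotence := by
      rcases hK with h | ⟨m', hm', h⟩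
      · exact h
      · exact hC.kimura m' hm' h
    obtain ⟨h1, h2⟩ := TB.core G (toTB hC.theory) (toTB_isChow hC) (isFinite_iff hF)
      ((nilpotence_iff hC.theory).2 hnil) (hT n) (hH n)
    exact ⟨⟨hT n, hH n, h1, h2⟩, fg_of_isWeightDim (hE n) fun r hr => h2 _ r hr⟩
  · exact Or.inr h

end Pool.Agent.E8helper1.TBW
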