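import Mathlib

/-!
# Étale motivic cohomology in the weight of the dimension: definitions
-/

set_option autoImplicit false

namespace Pool.Agent.E8helper1.TBW

/-- `E s i = H^i((Y_s)_et, ℤ(D))` for the base changes `Y_s` to `𝔽_(q^s)` of a smooth projective variety
`Y` of dimension `D` over `𝔽_q`, and `N r = CH^D(Y', r) ⊗ ℚ`, where `Y'` is the base change to the
algebraic closure. The group `E s (2 D)` is finitely generated (class field theory of Kato and Saito),
and for `r ≥ 1` the kernel of the map of `E s (2 D - r)` to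
`H^(2 D - r)(Y_s, ℚ(D)) = CH^D(Y_s, r) ⊗ ℚ ⊆ N r` is finite (by the finiteness of
`H^j((Y_s)_et, ℚ/ℤ(D))` for `j < 2 D`). -/
structure IsWeightDim (D : ℕ) (N : ℕ → Type) [∀ r, AddCommGroup (N r)] (E : ℕ → ℤ → Type)
    [∀ s i, AddCommGroup (E s i)] : Prop where
  top : ∀ s, 1 ≤ s → AddGroup.FG (E s (2 * D))
  low : ∀ s, 1 ≤ s → ∀ r : ℕ, 1 ≤ r → ∃ f : E s (2 * D - r) →+ N r, Finite f.ker

/-- The conclusion of Q1 for all `Y_s`: the groups `H^i((Y_s)_et, ℤ(D))` are finitely generated for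
all `i ≤ 2 D`. -/
def FinitelyGenerated (D : ℕ) (E : ℕ → ℤ → Type) [∀ s i, AddCommGroup (E s i)] : Prop :=
  ∀ s, 1 ≤ s → ∀ i : ℤ, i ≤ 2 * D → AddGroup.FG (E s i)

end Pool.Agent.E8helper1.TBW
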